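import Mathlib

/-!
# MP_abea68, Q1: `C[1, ω^ω]` does not embed isometrically into itself in an SPR way
-/

set_option autoImplicit false

noncomputable section

open Filter Topology Ordinal

namespace Pool.Agent.Results.MP_abea68_an.NoSPR

/-! ### The game -/

section Game

variable {X : Type*}

/-- Nested `∀ᶠ` quantifiers: for most `k₁`, for most `k₂`, …, for most `k_m` the function
`φ + ∑ |y_{k_i … k_1 s}|` has the property `P`. -/
def Win (y : List ℕ → X → ℝ) : ℕ → List ℕ → (X → ℝ) → ((X → ℝ) → Prop) → Prop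
  | 0, _, φ, P => P φ
  | m + 1, s, φ, P => ∀ᶠ k in atTop, Win y m (k :: s) (fun t => φ t + |y (k :: s) t|) P

variable {y : List ℕ → X → ℝ}

theorem Win.mono {P Q : (X → ℝ) → Prop} (h : ∀ ψ, P ψ → Q ψ) :
    ∀ (m : ℕ) (s : List ℕ) (φ : X → ℝ), Win y m s φ P → Win y m s φ Q
  | 0, _, φ, hP => h φ hP
  | m + 1, s, φ, hP => by
    have hP' : ∀ᶠ k in atTop, Win y m (k :: s) (fun t => φ t + |y (k :: s) t|) P := hP
    exact hP'.mono fun k hk => Win.mono h m _ _ hk

theorem Win.and {P Q : (X → ℝ) → Prop} :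
    ∀ (m : ℕ) (s : List ℕ) (φ : X → ℝ), Win y m s φ P → Win y m s φ Q →
      Win y m s φ (fun ψ => P ψ ∧ Q ψ)
  | 0, _, _, hP, hQ => ⟨hP, hQ⟩
  | m + 1, s, φ, hP, hQ => by
    have hP' : ∀ᶠ k in atTop, Win y m (k :: s) (fun t => φ t + |y (k :: s) t|) P := hP
    have hQ' : ∀ᶠ k in atTop, Win y m (k :: s) (fun t => φ t + |y (k :: s) t|) Q := hQ
    exact (hP'.and hQ').mono fun k hk => Win.and m _ _ hk.1 hk.2

theorem Win.of_forall {P : (X → ℝ) → Prop} (h : ∀ ψ, P ψ) :
    ∀ (m : ℕ) (s : List ℕ) (φ : X → ℝ), Win y m s φ P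
  | 0, _, φ => h φ
  | m + 1, s, φ => Filter.Eventually.of_forall fun _ => Win.of_forall h m _ _

theorem Win.shift {P : (X → ℝ) → Prop} (χ : X → ℝ) :
    ∀ (m : ℕ) (s : List ℕ) (φ : X → ℝ), Win y m s φ (fun ψ => P (fun t => χ t + ψ t)) →
      Win y m s (fun t => χ t + φ t) P
  | 0, _, _, h => h
  | m + 1, s, φ, h => by
    have h' : ∀ᶠ k in atTop, Win y m (k :: s) (fun t => φ t + |y (k :: s) t|)
      (fun ψ => P (fun t => χ t + ψ t)) := h
    refine h'.mono fun k hk => ?_
    have := Win.shift χ m _ _ hk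
    simpa only [add_assoc] using this

/-- Extracting a branch. -/
theorem Win.exists_branch {P : (X → ℝ) → Prop} :
    ∀ (m : ℕ) (s : List ℕ) (φ : X → ℝ), Win y m s φ P →
      ∃ p : ℕ → List ℕ, p 0 = s ∧ (∀ i, i < m → ∃ k, p (i + 1) = k :: p i) ∧
        P (fun t => φ t + ∑ i ∈ Finset.range m, |y (p (i + 1)) t|)
  | 0, s, φ, h => ⟨fun _ => s, rfl, fun i hi => absurd hi (Nat.not_lt_zero i), by
      have h' : P φ := h
      simpa using h'⟩
  | m + 1, s, φ, h => by
    have h' : ∀ᶠ k in atTop, Win y m (k :: s) (fun t => φ t + |y (k :: s) t|) P := h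
    obtain ⟨k, hk⟩ := h'.exists
    obtain ⟨p, hp0, hp, hP⟩ := Win.exists_branch m _ _ hk
    refine ⟨fun i => Nat.casesOn i s p, rfl, fun i hi => ?_, ?_⟩
    · cases i with
      | zero => exact ⟨k, hp0⟩
      | succ i => exact hp i (by omega)
    · have h2 : (fun t => φ t + ∑ i ∈ Finset.range (m + 1),
          |y ((fun i => Nat.casesOn i s p : ℕ → List ℕ) (i + 1)) t|) =
          fun t => φ t + |y (k :: s) t| + ∑ i ∈ Finset.range m, |y (p (i + 1)) t| := by
        funext t
        rw [Finset.sum_range_succ']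
        show φ t + (∑ i ∈ Finset.range m, |y (p (i + 1)) t| + |y (p 0) t|) = _
        rw [hp0]
        ring
      rw [h2]
      exact hP

variable [TopologicalSpace X]

/-- Sets of Cantor-Bendixson rank at most `n`. -/
def R : ℕ → Set X → Prop
  | 0, D => D = ∅
  | n + 1, D => ∃ F : Set X, F.Finite ∧ ∀ U, IsOpen U → F ⊆ U → R n (D \ U)

theorem R.mono : ∀ {n : ℕ} {D E : Set X}, R n D → E ⊆ D → R n E
  | 0, D, E, h, hE => by
    have h' : D = ∅ := h
    rw [h'] at hE
    exact Set.subset_empty_iff.mp hE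
  | n + 1, D, E, h, hE => by
    obtain ⟨F, hF, h⟩ := h
    exact ⟨F, hF, fun U hU hFU => R.mono (h U hU hFU) (Set.sdiff_subset_sdiff_left hE)⟩

theorem R.empty : ∀ n : ℕ, R n (∅ : Set X)
  | 0 => rfl
  | n + 1 => ⟨∅, Set.finite_empty, fun U _ _ => by
    rw [Set.empty_sdiff]; exact R.empty n⟩

theorem R.union : ∀ {n : ℕ} {D E : Set X}, R n D → R n E → R n (D ∪ E)
  | 0, D, E, h, h' => by
    have h1 : D = ∅ := h
    have h2 : E = ∅ := h'
    show D ∪ E = ∅
    rw [h1, h2, Set.union_empty]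
  | n + 1, D, E, h, h' => by
    obtain ⟨F, hF, h⟩ := h
    obtain ⟨F', hF', h'⟩ := h'
    refine ⟨F ∪ F', hF.union hF', fun U hU hFU => ?_⟩
    rw [Set.union_sdiff_distrib]
    exact R.union (h U hU (Set.subset_union_left.trans hFU))
      (h' U hU (Set.subset_union_right.trans hFU))

/-- On sets of finite rank, weakly null trees have small branches. -/
theorem main_game (hcont : ∀ s, Continuous (y s)) (hle : ∀ s t, |y s t| ≤ 1)
    (hnull : ∀ s t, Tendsto (fun k => y (k :: s) t) atTop (𝓝 0)) :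
    ∀ (n : ℕ) (D : Set X), R n D → ∀ (m : ℕ) (s : List ℕ) (ε : ℝ), 0 < ε →
      Win y m s (fun _ => 0) (fun ψ => ∀ t ∈ D, ψ t ≤ n + ε)
  | 0, D, hD, m, s, ε, hε => by
    have hD' : D = ∅ := hD
    refine Win.of_forall (fun ψ t ht => ?_) m s _
    rw [hD'] at ht
    exact absurd ht (Set.notMem_empty t)
  | n + 1, D, hD, m, s, ε, hε => by
    induction m generalizing s ε with
    | zero =>
      intro t _
      positivity
    | succ m ih =>
      obtain ⟨F, hF, hD⟩ := hD
      have hev : ∀ᶠ k in atTop, ∀ t ∈ F, |y (k :: s) t| < ε / 2 := by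
        rw [Filter.eventually_all_finite hF]
        intro t _
        have h1 := (hnull s t).abs
        rw [abs_zero] at h1
        exact h1.eventually_lt_const (by positivity)
      refine hev.mono fun k hk => ?_
      have hU : IsOpen {t | |y (k :: s) t| < ε / 2} :=
        isOpen_lt (hcont _).abs continuous_const
      have h1 := main_game hcont hle hnull n _ (hD _ hU fun t ht => hk t ht) m (k :: s) ε hε
      have h2 := ih (k :: s) (ε / 2) (by positivity)
      have h3 := Win.mono (Q := fun ψ => ∀ t ∈ D, |y (k :: s) t| + ψ t ≤ ((n + 1 : ℕ) : ℝ) + ε)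
        (fun ψ hψ t ht => ?_) m _ _ (Win.and m _ _ h1 h2)
      · have h4 := Win.shift (P := fun ψ => ∀ t ∈ D, ψ t ≤ ((n + 1 : ℕ) : ℝ) + ε)
          (fun t => |y (k :: s) t|) m _ _ h3
        have h5 : (fun t => |y (k :: s) t| + (fun _ => (0 : ℝ)) t) =
            fun t => (fun _ => (0 : ℝ)) t + |y (k :: s) t| := by
          funext t; ring
        rw [h5] at h4
        exact h4
      · obtain ⟨hψ1, hψ2⟩ := hψ
        by_cases hU' : |y (k :: s) t| < ε / 2
        · have := hψ2 t ht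
          linarith
        · have h6 := hψ1 t ⟨ht, hU'⟩
          have h7 := hle (k :: s) t
          push_cast
          linarith

end Game

/-! ### Ordinals -/

theorem R_Ioc : ∀ (n : ℕ) (a : Ordinal.{0}), R (n + 1) (Set.Ioc a (a + ω ^ n))
  | 0, a => by
    refine ⟨{a + 1}, Set.finite_singleton _, fun U _ hFU => ?_⟩
    show Set.Ioc a (a + ω ^ 0) \ U = ∅
    rw [Set.sdiff_eq_empty]
    rintro t ⟨h1, h2⟩
    rw [pow_zero] at h2
    have h3 : a + 1 ≤ t := by
      rw [← Order.succ_eq_add_one]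
      exact Order.succ_le_of_lt h1
    exact hFU (le_antisymm h2 h3)
  | n + 1, a => by
    have hk : ∀ k : ℕ, R (n + 1) (Set.Ioc a (a + ω ^ n * (k : Ordinal.{0}))) := by
      intro k
      induction k with
      | zero =>
        rw [Nat.cast_zero, mul_zero, add_zero, Set.Ioc_self]
        exact R.empty _
      | succ k ih =>
        refine R.mono (R.union ih (R_Ioc n (a + ω ^ n * (k : Ordinal.{0})))) ?_
        rintro t ⟨h1, h2⟩
        rcases le_or_gt t (a + ω ^ n * (k : Ordinal.{0})) with h | h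
        · exact Or.inl ⟨h1, h⟩
        · refine Or.inr ⟨h, ?_⟩
          rw [Nat.cast_succ, mul_add, mul_one, ← add_assoc] at h2
          exact h2
    refine ⟨{a + ω ^ (n + 1)}, Set.finite_singleton _, fun U hU hFU => ?_⟩
    have hmem : a + ω ^ (n + 1) ∈ U := hFU rfl
    have hpos : (0 : Ordinal.{0}) < ω ^ (n + 1) := pow_pos omega0_pos _
    obtain ⟨γ, hγ, hsub⟩ := exists_Ioc_subset_of_mem_nhds (hU.mem_nhds hmem)
      ⟨0, lt_of_lt_of_le hpos (le_add_self)⟩
    have h1 : γ - a < ω ^ n * ω := by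
      rw [← pow_succ]
      exact Ordinal.sub_lt_of_lt_add hγ hpos
    obtain ⟨c, hc, hlt⟩ := (Ordinal.lt_mul_iff_of_isSuccLimit isSuccLimit_omega0).mp h1
    obtain ⟨k, rfl⟩ := Ordinal.lt_omega0.mp hc
    refine R.mono (hk k) ?_
    rintro t ⟨⟨h2, h3⟩, h4⟩
    refine ⟨h2, ?_⟩
    have h5 : t ≤ γ := by
      by_contra h6
      exact h4 (hsub ⟨not_le.mp h6, h3⟩)
    refine h5.trans ((Ordinal.le_add_sub γ a).trans ?_)
    exact add_le_add_right hlt.le a

/-! ### The tree -/

/-- The left end points of the intervals. -/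
def base (m : ℕ) : List ℕ → Ordinal.{0}
  | [] => 0
  | k :: s => base m s + ω ^ (m - (s.length + 1)) * (k : Ordinal.{0})

/-- The intervals. -/
def II (m : ℕ) (s : List ℕ) : Set Ordinal.{0} :=
  if s.length ≤ m then Set.Ioc (base m s) (base m s + ω ^ (m - s.length)) else ∅

theorem II_subset (m k : ℕ) (s : List ℕ) : II m (k :: s) ⊆ II m s := by
  by_cases h : s.length + 1 ≤ m
  · have h' : s.length ≤ m := by omega
    rw [II, II, if_pos (by simpa using h), if_pos h']
    have hb : base m (k :: s) = base m s + ω ^ (m - (s.length + 1)) * (k : Ordinal.{0}) := rfl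
    rw [hb, List.length_cons]
    refine Set.Ioc_subset_Ioc le_self_add ?_
    rw [add_assoc]
    refine add_le_add_right ?_ _
    have h1 : m - s.length = (m - (s.length + 1)) + 1 := by omega
    rw [h1, pow_succ]
    have h2 : ω ^ (m - (s.length + 1)) * (k : Ordinal.{0}) + ω ^ (m - (s.length + 1)) =
        ω ^ (m - (s.length + 1)) * ((k + 1 : ℕ) : Ordinal.{0}) := by
      rw [Nat.cast_succ, mul_add, mul_one]
    rw [h2]
    exact mul_le_mul_right (natCast_lt_omega0 _).le _
  · rw [II, if_neg (by simpa using h)]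
    exact Set.empty_subset _

theorem II_disjoint (m : ℕ) (s : List ℕ) {k l : ℕ} (hkl : k ≠ l) {t : Ordinal.{0}}
    (hk : t ∈ II m (k :: s)) : t ∉ II m (l :: s) := by
  by_cases h : s.length + 1 ≤ m
  · have key : ∀ k l : ℕ, k < l → t ∈ II m (k :: s) → t ∉ II m (l :: s) := by
      intro k l hkl hk hl
      rw [II, if_pos (by simpa using h)] at hk hl
      have hb : ∀ k, base m (k :: s) = base m s + ω ^ (m - (s.length + 1)) * (k : Ordinal.{0}) :=
        fun _ => rfl
      rw [hb, List.length_cons, add_assoc] at hk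
      rw [hb] at hl
      have h1 : ω ^ (m - (s.length + 1)) * (k : Ordinal.{0}) + ω ^ (m - (s.length + 1)) =
          ω ^ (m - (s.length + 1)) * ((k + 1 : ℕ) : Ordinal.{0}) := by
        rw [Nat.cast_succ, mul_add, mul_one]
      rw [h1] at hk
      have h2 : ω ^ (m - (s.length + 1)) * ((k + 1 : ℕ) : Ordinal.{0}) ≤
          ω ^ (m - (s.length + 1)) * (l : Ordinal.{0}) :=
        mul_le_mul_right (by exact_mod_cast hkl) _
      have h3 := hk.2.trans (add_le_add_right h2 (base m s))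
      exact absurd hl.1 (not_lt.mpr h3)
    rcases lt_or_gt_of_ne hkl with h1 | h1
    · exact key k l h1 hk
    · intro hl
      exact key l k h1 hl hk
  · rw [II, if_neg (by simpa using h)] at hk
    exact absurd hk (Set.notMem_empty t)

theorem II_nonempty (m : ℕ) (s : List ℕ) (h : s.length ≤ m) : (II m s).Nonempty := by
  rw [II, if_pos h]
  refine ⟨base m s + ω ^ (m - s.length), ?_, le_rfl⟩
  exact lt_add_of_pos_right _ (pow_pos omega0_pos _)

theorem II_subset_root (m : ℕ) : ∀ s : List ℕ, II m s ⊆ Set.Ioc 0 (ω ^ m)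
  | [] => by
    rw [II, if_pos (by simp)]
    show Set.Ioc (0 : Ordinal.{0}) (0 + ω ^ (m - 0)) ⊆ _
    rw [zero_add, Nat.sub_zero]
  | k :: s => (II_subset m k s).trans (II_subset_root m s)

theorem II_isClopen (m : ℕ) (s : List ℕ) : IsClopen (II m s) := by
  by_cases h : s.length ≤ m
  · rw [II, if_pos h]
    constructor
    · rw [show Set.Ioc (base m s) (base m s + ω ^ (m - s.length)) =
        Set.Icc (Order.succ (base m s)) (base m s + ω ^ (m - s.length)) from by
          ext t; simp]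
      exact isClosed_Icc
    · rw [show Set.Ioc (base m s) (base m s + ω ^ (m - s.length)) =
        Set.Ioo (base m s) (Order.succ (base m s + ω ^ (m - s.length))) from by
          ext t; simp]
      exact isOpen_Ioo
  · rw [II, if_neg h]
    exact isClopen_empty

/-- The compact space `[1, ω^ω]`. -/
abbrev K : Type 1 := Set.Icc (1 : Ordinal.{0}) (ω ^ ω)

theorem one_le_top : (1 : Ordinal.{0}) ≤ ω ^ ω := by
  rw [Order.one_le_iff_ne_zero]
  exact (Ordinal.opow_pos _ omega0_pos).ne'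

/-- The indicator functions. -/
def xs (m : ℕ) (s : List ℕ) : C(K, ℝ) :=
  ⟨(Subtype.val ⁻¹' II m s).indicator fun _ => (1 : ℝ), by
    refine Continuous.indicator ?_ continuous_const
    intro t ht
    rw [((II_isClopen m s).preimage continuous_subtype_val).frontier_eq] at ht
    exact absurd ht (Set.notMem_empty t)⟩

theorem xs_apply_mem {m : ℕ} {s : List ℕ} {t : K} (h : t.1 ∈ II m s) : xs m s t = 1 := by
  show (Subtype.val ⁻¹' II m s).indicator (fun _ => (1 : ℝ)) t = 1
  exact Set.indicator_of_mem (show t ∈ Subtype.val ⁻¹' II m s from h) _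

theorem xs_apply_notMem {m : ℕ} {s : List ℕ} {t : K} (h : t.1 ∉ II m s) : xs m s t = 0 := by
  show (Subtype.val ⁻¹' II m s).indicator (fun _ => (1 : ℝ)) t = 0
  exact Set.indicator_of_notMem (show t ∉ Subtype.val ⁻¹' II m s from h) _

theorem norm_xs_le (m : ℕ) (s : List ℕ) : ‖xs m s‖ ≤ 1 := by
  refine (ContinuousMap.norm_le _ zero_le_one).mpr fun t => ?_
  by_cases h : t.1 ∈ II m s
  · rw [xs_apply_mem h, norm_one]
  · rw [xs_apply_notMem h, norm_zero]; exact zero_le_one

/-- The children are weakly null. -/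
theorem xs_null (m : ℕ) (s : List ℕ) (f : StrongDual ℝ C(K, ℝ)) :
    Tendsto (fun k => f (xs m (k :: s))) atTop (𝓝 0) := by
  let e : ℕ → ℝ := fun k => if 0 ≤ f (xs m (k :: s)) then 1 else -1
  have he : ∀ k, e k * f (xs m (k :: s)) = |f (xs m (k :: s))| := fun k => by
    by_cases h : 0 ≤ f (xs m (k :: s))
    · simp only [e, if_pos h, one_mul, abs_of_nonneg h]
    · simp only [e, if_neg h, neg_one_mul, abs_of_neg (not_le.mp h)]
  have he1 : ∀ k, |e k| = 1 := fun k => by
    by_cases h : 0 ≤ f (xs m (k :: s))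
    · simp only [e, if_pos h, abs_one]
    · simp only [e, if_neg h, abs_neg, abs_one]
  have hnorm : ∀ N, ‖∑ k ∈ Finset.range N, e k • xs m (k :: s)‖ ≤ 1 := by
    intro N
    refine (ContinuousMap.norm_le _ zero_le_one).mpr fun t => ?_
    rw [ContinuousMap.sum_apply]
    by_cases hz : ∀ k ∈ Finset.range N, (e k • xs m (k :: s)) t = 0
    · rw [Finset.sum_eq_zero hz, norm_zero]; exact zero_le_one
    · push Not at hz
      obtain ⟨k, hk, hne⟩ := hz
      have hmem : t.1 ∈ II m (k :: s) := by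
        by_contra hcon
        apply hne
        show e k * xs m (k :: s) t = 0
        rw [xs_apply_notMem hcon, mul_zero]
      rw [Finset.sum_eq_single_of_mem k hk]
      · show ‖e k * xs m (k :: s) t‖ ≤ 1
        rw [norm_mul, Real.norm_eq_abs, he1, one_mul]
        exact ((xs m (k :: s)).norm_coe_le_norm t).trans (norm_xs_le _ _)
      · intro l _ hlk
        show e l * xs m (l :: s) t = 0
        rw [xs_apply_notMem (II_disjoint m s (Ne.symm hlk) hmem), mul_zero]
  have hsum : Summable fun k => |f (xs m (k :: s))| := by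
    refine summable_of_sum_range_le (c := ‖f‖) (fun _ => abs_nonneg _) fun N => ?_
    have h2 : ∑ k ∈ Finset.range N, |f (xs m (k :: s))| =
        f (∑ k ∈ Finset.range N, e k • xs m (k :: s)) := by
      rw [map_sum]
      refine Finset.sum_congr rfl fun k _ => ?_
      rw [map_smul, _root_.smul_eq_mul, he]
    rw [h2]
    calc f (∑ k ∈ Finset.range N, e k • xs m (k :: s)) ≤
        ‖f (∑ k ∈ Finset.range N, e k • xs m (k :: s))‖ := le_abs_self _
      _ ≤ ‖f‖ * ‖∑ k ∈ Finset.range N, e k • xs m (k :: s)‖ := f.le_opNorm _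
      _ ≤ ‖f‖ * 1 := mul_le_mul_of_nonneg_left (hnorm N) (norm_nonneg f)
      _ = ‖f‖ := mul_one _
  exact (summable_abs_iff.mp hsum).tendsto_atTop_zero

theorem abs_sub_abs_le (a b : ℝ) : |(|a + b| - |a - b|)| ≤ 2 * |a| ∧
    |(|a + b| - |a - b|)| ≤ 2 * |b| := by
  constructor
  · have h := abs_abs_sub_abs_le_abs_sub (a + b) (b - a)
    rw [abs_sub_comm b a, show a + b - (b - a) = 2 * a by ring, abs_mul, abs_two] at h
    exact h
  · have h := abs_abs_sub_abs_le_abs_sub (a + b) (a - b)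
    rw [show a + b - (a - b) = 2 * b by ring, abs_mul, abs_two] at h
    exact h

theorem main_theorem (T : C(K, ℝ) →ₗᵢ[ℝ] C(K, ℝ)) (C : ℝ) (hC : 1 ≤ C) :
    ∃ f g : C(K, ℝ), f ∈ Set.range T ∧ g ∈ Set.range T ∧
      C * ‖|f| - |g|‖ < min ‖f - g‖ ‖f + g‖ := by
  by_contra hcon
  push Not at hcon
  have hSPR : ∀ f g : C(K, ℝ), min ‖T f - T g‖ ‖T f + T g‖ ≤ C * ‖|T f| - |T g|‖ :=
    fun f g => hcon _ _ ⟨f, rfl⟩ ⟨g, rfl⟩
  have hCpos : 0 < C := by linarith
  have hKne : Nonempty K := ⟨⟨1, le_rfl, one_le_top⟩⟩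
  -- attained norms
  have hatt : ∀ h : C(K, ℝ), ∃ t : K, ‖h‖ ≤ |h t| := by
    intro h
    obtain ⟨t, -, ht⟩ := isCompact_univ.exists_isMaxOn (Set.univ_nonempty (α := K))
      (h.continuous.abs.continuousOn)
    exact ⟨t, (ContinuousMap.norm_le _ (abs_nonneg _)).mpr fun s => ht (Set.mem_univ s)⟩
  -- consequence of SPR
  have hkey : ∀ f g : C(K, ℝ), ‖f‖ = 1 → ∃ t : K, ‖g‖ ≤ C * (‖g‖ * |T f t|) ∧
      ‖g‖ ≤ C * |T g t| := by
    intro f g hf
    obtain ⟨t, ht⟩ := hatt (|T (‖g‖ • f + g)| - |T (‖g‖ • f - g)|)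
    have h1 := hSPR (‖g‖ • f + g) (‖g‖ • f - g)
    rw [← map_sub, ← map_add, T.norm_map, T.norm_map,
      show ‖g‖ • f + g - (‖g‖ • f - g) = (2 : ℝ) • g by rw [two_smul]; abel,
      show ‖g‖ • f + g + (‖g‖ • f - g) = (2 : ℝ) • (‖g‖ • f) by rw [two_smul]; abel,
      norm_smul, norm_smul, norm_smul, hf, mul_one, norm_norm, min_self, Real.norm_eq_abs,
      abs_two] at h1
    have h2 : (|T (‖g‖ • f + g)| - |T (‖g‖ • f - g)|) t =
        |‖g‖ * T f t + T g t| - |‖g‖ * T f t - T g t| := by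
      rw [map_add, map_sub, map_smul]
      rfl
    rw [h2] at ht
    have h3 := abs_sub_abs_le (‖g‖ * T f t) (T g t)
    refine ⟨t, ?_, ?_⟩
    · have h4 := mul_le_mul_of_nonneg_left (ht.trans h3.1) hCpos.le
      rw [abs_mul, abs_norm] at h4
      linarith
    · have h4 := mul_le_mul_of_nonneg_left (ht.trans h3.2) hCpos.le
      linarith
  -- a function vanishing at the top
  let top : K := ⟨ω ^ ω, one_le_top, le_rfl⟩
  obtain ⟨f, hf1, hf0⟩ : ∃ f : C(K, ℝ), ‖f‖ = 1 ∧ T f top = 0 := by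
    obtain ⟨f, hfne, hf0⟩ : ∃ f : C(K, ℝ), f ≠ 0 ∧ T f top = 0 := by
      by_cases h1 : T (xs 1 [0]) top = 0
      · refine ⟨xs 1 [0], fun h => ?_, h1⟩
        obtain ⟨t, ht⟩ := II_nonempty 1 [0] (by simp)
        have ht2 := II_subset_root 1 [0] ht
        have hlt : t ≤ ω ^ ω := by
          refine ht2.2.trans ?_
          rw [pow_one]
          exact Ordinal.left_le_opow _ omega0_pos
        have h2 := xs_apply_mem (t := ⟨t, Order.one_le_iff_pos.mpr ht2.1, hlt⟩) ht
        rw [h] at h2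
        exact zero_ne_one h2
      · refine ⟨T (xs 1 [1]) top • xs 1 [0] - T (xs 1 [0]) top • xs 1 [1], fun h => ?_, ?_⟩
        · obtain ⟨t, ht⟩ := II_nonempty 1 [1] (by simp)
          have ht2 := II_subset_root 1 [1] ht
          have hlt : t ≤ ω ^ ω := by
            refine ht2.2.trans ?_
            rw [pow_one]
            exact Ordinal.left_le_opow _ omega0_pos
          have h2 : (T (xs 1 [1]) top • xs 1 [0] - T (xs 1 [0]) top • xs 1 [1])
              (⟨t, Order.one_le_iff_pos.mpr ht2.1, hlt⟩ : K) = 0 := by rw [h]; rfl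
          have h3 : T (xs 1 [1]) top * xs 1 [0] (⟨t, Order.one_le_iff_pos.mpr ht2.1, hlt⟩ : K) -
            T (xs 1 [0]) top * xs 1 [1] (⟨t, Order.one_le_iff_pos.mpr ht2.1, hlt⟩ : K) = 0 := h2
          rw [xs_apply_mem (s := [1]) ht,
            xs_apply_notMem (s := [0]) (II_disjoint 1 [] one_ne_zero ht)] at h3
          apply h1
          linarith
        · rw [map_sub, map_smul, map_smul]
          show T (xs 1 [1]) top * T (xs 1 [0]) top - T (xs 1 [0]) top * T (xs 1 [1]) top = 0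
          ring
    have hn : 0 < ‖f‖ := norm_pos_iff.mpr hfne
    refine ⟨‖f‖⁻¹ • f, ?_, ?_⟩
    · rw [norm_smul, norm_inv, norm_norm, inv_mul_cancel₀ hn.ne']
    · rw [map_smul]
      show ‖f‖⁻¹ * T f top = 0
      rw [hf0, mul_zero]
  -- the set `D`
  let pr : Ordinal.{0} → K := Set.projIcc 1 (ω ^ ω) one_le_top
  have hpr : Continuous pr := continuous_projIcc
  have hprK : ∀ t : K, pr t.1 = t := fun t => Set.projIcc_val one_le_top t
  let D : Set Ordinal.{0} := {t | 1 ≤ t ∧ t ≤ ω ^ ω ∧ 1 / C ≤ |T f (pr t)|}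
  obtain ⟨n, hn⟩ : ∃ n, R (n + 1) D := by
    have hnb : {t : Ordinal.{0} | |T f (pr t)| < 1 / C} ∈ 𝓝 (ω ^ ω : Ordinal.{0}) := by
      refine (isOpen_lt (((T f).continuous.comp hpr).abs) continuous_const).mem_nhds ?_
      show |T f (pr (ω ^ ω))| < 1 / C
      have h1 : pr (ω ^ ω) = top := hprK top
      rw [h1, hf0, abs_zero]
      positivity
    obtain ⟨γ, hγ, hsub⟩ := exists_Ioc_subset_of_mem_nhds hnb
      ⟨0, Ordinal.opow_pos _ omega0_pos⟩
    obtain ⟨c, hc, hlt⟩ := (Ordinal.lt_opow_of_isSuccLimit omega0_ne_zero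
      isSuccLimit_omega0).mp hγ
    obtain ⟨n, rfl⟩ := Ordinal.lt_omega0.mp hc
    rw [Ordinal.opow_natCast] at hlt
    refine ⟨n, R.mono (R_Ioc n 0) ?_⟩
    rintro t ⟨h1, h2, h3⟩
    refine ⟨Order.one_le_iff_pos.mp h1, ?_⟩
    rw [zero_add]
    by_contra h4
    have h5 : |T f (pr t)| < 1 / C := hsub ⟨hlt.trans (not_le.mp h4), h2⟩
    linarith
  -- the game
  obtain ⟨m, hm⟩ := exists_nat_gt (C * (((n + 1 : ℕ) : ℝ) + 1))
  have hW := main_game (X := Ordinal.{0}) (y := fun s t => T (xs m s) (pr t))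
    (fun s => (T (xs m s)).continuous.comp hpr)
    (fun s t => ((T (xs m s)).norm_coe_le_norm _).trans (by
      rw [T.norm_map]; exact norm_xs_le m s))
    (fun s t => by
      let F : StrongDual ℝ C(K, ℝ) :=
        (ContinuousMap.evalCLM ℝ (pr t)).comp T.toContinuousLinearMap
      exact xs_null m s F) (n + 1) D hn m [] 1 one_pos
  obtain ⟨p, hp0, hp, hP⟩ := Win.exists_branch m [] _ hW
  -- the sum along the branch
  have hlen : ∀ i, i ≤ m → (p i).length = i := by
    intro i
    induction i with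
    | zero => intro _; rw [hp0]; rfl
    | succ i ih =>
      intro hi
      obtain ⟨k, hk⟩ := hp i (by omega)
      rw [hk, List.length_cons, ih (by omega)]
  obtain ⟨t0, ht0⟩ := II_nonempty m (p m) (hlen m le_rfl).le
  have hmem : ∀ j i, i + j = m → t0 ∈ II m (p i) := by
    intro j
    induction j with
    | zero => intro i hi; rw [show i = m by omega]; exact ht0
    | succ j ih =>
      intro i hi
      obtain ⟨k, hk⟩ := hp i (by omega)
      have h1 := ih (i + 1) (by omega)
      rw [hk] at h1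
      exact II_subset m k _ h1
  have ht0' := II_subset_root m (p m) ht0
  have ht0K : t0 ≤ ω ^ ω := by
    refine ht0'.2.trans ?_
    rw [← Ordinal.opow_natCast]
    exact Ordinal.opow_le_opow_right omega0_pos (natCast_lt_omega0 _).le
  let τ : K := ⟨t0, Order.one_le_iff_pos.mpr ht0'.1, ht0K⟩
  set g : C(K, ℝ) := ∑ i ∈ Finset.range m, xs m (p (i + 1)) with hg
  have hgn : (m : ℝ) ≤ ‖g‖ := by
    have h1 : g τ = m := by
      rw [hg, ContinuousMap.sum_apply]
      rw [Finset.sum_congr rfl fun i hi => xs_apply_mem (t := τ) (hmem (m - (i + 1)) (i + 1) (by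
        have := Finset.mem_range.mp hi
        omega))]
      simp
    calc (m : ℝ) = g τ := h1.symm
      _ ≤ |g τ| := le_abs_self _
      _ ≤ ‖g‖ := g.norm_coe_le_norm τ
  have hm0 : (0 : ℝ) < m := lt_of_le_of_lt (by positivity) hm
  have hgpos : 0 < ‖g‖ := hm0.trans_le hgn
  obtain ⟨t, ht1, ht2⟩ := hkey f g hf1
  have htD : t.1 ∈ D := by
    refine ⟨t.2.1, t.2.2, ?_⟩
    rw [hprK, div_le_iff₀ hCpos]
    have h1 : ‖g‖ * 1 ≤ ‖g‖ * (|T f t| * C) := by
      rw [mul_one]
      linarith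
    exact le_of_mul_le_mul_left h1 hgpos
  have h1 := hP t.1 htD
  have h2 : |T g t| ≤ ((n + 1 : ℕ) : ℝ) + 1 := by
    have h3 : T g t = ∑ i ∈ Finset.range m, T (xs m (p (i + 1))) t := by
      rw [hg, map_sum, ContinuousMap.sum_apply]
    rw [h3]
    refine (Finset.abs_sum_le_sum_abs _ _).trans ?_
    have h4 : ∑ i ∈ Finset.range m, |T (xs m (p (i + 1))) t| =
        0 + ∑ i ∈ Finset.range m, |T (xs m (p (i + 1))) (pr t.1)| := by
      rw [hprK, zero_add]
    rw [h4]
    exact h1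
  have h5 : (m : ℝ) ≤ C * (((n + 1 : ℕ) : ℝ) + 1) :=
    hgn.trans (ht2.trans (mul_le_mul_of_nonneg_left h2 hCpos.le))
  linarith

/-- The Banach lattice `C[1, ω^ω]`. -/
def CK : Type 1 := C(K, ℝ)

instance : NormedAddCommGroup CK := inferInstanceAs (NormedAddCommGroup C(K, ℝ))

instance : NormedSpace ℝ CK := inferInstanceAs (NormedSpace ℝ C(K, ℝ))

/-- The lattice absolute value of `C(K, ℝ)`. -/
def absK (f : C(K, ℝ)) : C(K, ℝ) := |f|

/-- The lattice absolute value. -/
def absC : CK → CK := absK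

/-- The set `E` does `C`-stable phase retrieval. -/
def DoesSPR (C : ℝ) (E : Set CK) : Prop :=
  ∀ f ∈ E, ∀ g ∈ E, min ‖f - g‖ ‖f + g‖ ≤ C * ‖absC f - absC g‖

/-- For every linear isometric embedding `T` of `C[1, ω^ω]` into itself the image of `T` does not do
stable phase retrieval. -/
theorem result : ∀ (T : CK →ₗᵢ[ℝ] CK) (C : ℝ), 1 ≤ C → ¬ DoesSPR C (Set.range T) := by
  intro T C hC h
  let T' : C(K, ℝ) →ₗᵢ[ℝ] C(K, ℝ) := T
  obtain ⟨f, g, hf, hg, hlt⟩ := main_theorem T' C hC
  exact absurd (h f hf g hg) (not_le.mpr hlt)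

end Pool.Agent.Results.MP_abea68_an.NoSPR
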